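import Pool.Agent.MBX.Stmts

/-!
Squad MBX, row LOW: the lower bound for wave functions.
-/

set_option autoImplicit false

open MeasureTheory Complex ProbabilityTheory

noncomputable section

namespace Pool.Agent.MBX.H6

open Pool.Agent.Helper49_Pauli Pool.Agent.MBX
open Pool.Agent.Loc (γn PB)

section basic

variable {ι : Type} [Fintype ι] [DecidableEq ι]

omit [DecidableEq ι] in
theorem pb_bdd {g : (ι → ℝ) → ℝ} (hc : Continuous g) {C : ℝ} (hb : ∀ y, |g y| ≤ C) : PB g := by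
  refine ⟨hc, C, 0, (abs_nonneg _).trans (hb 0), fun y => ?_⟩
  simpa using hb y

theorem pb_sum (t : Finset ι) (g : ι → (ι → ℝ) → ℝ) (hg : ∀ i, PB (g i)) :
    PB (fun y => ∑ i ∈ t, g i y) := by
  induction t using Finset.induction_on with
  | empty =>
    simp only [Finset.sum_empty]
    exact Pool.Agent.Loc.PB.const 0
  | insert a t ha ih =>
    simp only [Finset.sum_insert ha]
    exact Pool.Agent.Loc.PB.add (hg a) ih

theorem pb_nn : PB (fun y : ι → ℝ => nn y) :=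
  pb_sum Finset.univ (fun i y => y i ^ 2) fun i =>
    Pool.Agent.Loc.PB.pow (Pool.Agent.Loc.PB.coord i) 2

omit [DecidableEq ι] in
theorem nn_nonneg (y : ι → ℝ) : 0 ≤ nn y := Finset.sum_nonneg fun i _ => sq_nonneg (y i)

theorem nf_zero (hNFC : NfcStmt) {F : (ι → ℝ) → X3 → ℝ} (hF : NF F) :
    NF (fun (_ : ι → ℝ) (_ : X3) => (0 : ℝ)) := by
  have h := (hNFC ι F hF).2.1 (fun _ => 0) (Pool.Agent.Loc.PB.const 0)
  simpa using h

theorem nf_const (hNFC : NfcStmt) {F : (ι → ℝ) → X3 → ℝ} (hF : NF F) (c : ℝ) :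
    NF (fun y x => c * F y x) := (hNFC ι F hF).2.1 (fun _ => c) (Pool.Agent.Loc.PB.const c)

theorem nf_sum (hNFC : NfcStmt) {κ : Type} (t : Finset κ) (F : κ → (ι → ℝ) → X3 → ℝ)
    (hz : NF (fun (_ : ι → ℝ) (_ : X3) => (0 : ℝ))) (hF : ∀ i, NF (F i)) :
    NF (fun y x => ∑ i ∈ t, F i y x) := by
  classical
  induction t using Finset.induction_on with
  | empty =>
    simp only [Finset.sum_empty]
    exact hz
  | insert a t ha ih =>
    simp only [Finset.sum_insert ha]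
    exact ((hNFC ι _ (hF a)).1 _ ih).1

theorem nf_nsq (hSNF : SnfStmt) (hNFC : NfcStmt) {psi : (ι → ℝ) → X3 → S2} (h : WW psi) :
    NF (fun y x => nsq (psi y x)) := by
  have h0 := (hSNF ι _ (h 0)).2
  have h1 := (hSNF ι _ (h 1)).2
  have h2 := ((hNFC ι _ h0).1 _ h0).2
  have h3 := ((hNFC ι _ h1).1 _ h1).2
  have h4 := ((hNFC ι _ h2).1 _ h3).1
  have h5 : (fun (y : ι → ℝ) (x : X3) => nsq (psi y x)) = fun y x =>
      ‖psi y x 0‖ * ‖psi y x 0‖ + ‖psi y x 1‖ * ‖psi y x 1‖ := by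
    funext y x
    unfold nsq
    rw [Fin.sum_univ_two, pow_two, pow_two]
  rw [h5]
  exact h4

theorem nsq_nonneg (u : S2) : 0 ≤ nsq u := Finset.sum_nonneg fun _ _ => by positivity

theorem II_add (hNFI : NfiStmt) {F G : (ι → ℝ) → X3 → ℝ} (hF : NF F) (hG : NF G) :
    II (fun y x => F y x + G y x) = II F + II G :=
  integral_add (hNFI ι F hF) (hNFI ι G hG)

omit [DecidableEq ι] in
theorem II_mul (c : ℝ) (F : (ι → ℝ) → X3 → ℝ) : II (fun y x => c * F y x) = c * II F :=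
  integral_const_mul c _

theorem II_mono (hNFI : NfiStmt) {F G : (ι → ℝ) → X3 → ℝ} (hF : NF F) (hG : NF G)
    (h : ∀ y x, F y x ≤ G y x) : II F ≤ II G :=
  integral_mono (hNFI ι F hF) (hNFI ι G hG) fun z => h z.1 z.2

omit [DecidableEq ι] in
theorem II_nonneg {F : (ι → ℝ) → X3 → ℝ} (h : ∀ y x, 0 ≤ F y x) : 0 ≤ II F :=
  integral_nonneg fun z => h z.1 z.2

omit [Fintype ι] [DecidableEq ι] in
theorem cs_of_SS {q : (ι → ℝ) → X3 → ℂ} (hq : q ∈ SS ι) : ∀ y, CS (q y) := by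
  induction hq using Submodule.span_induction with
  | mem h hh =>
    obtain ⟨P, f, hf, rfl⟩ := hh
    intro y
    exact ⟨contDiff_const.mul hf.1, hf.2.mul_left⟩
  | zero => exact fun y => ⟨contDiff_const, HasCompactSupport.zero⟩
  | add q r _ _ h1 h2 => exact fun y => ⟨(h1 y).1.add (h2 y).1, (h1 y).2.add (h2 y).2⟩
  | smul c q _ h1 =>
    intro y
    have e : (c • q) y = fun x => c * q y x := rfl
    rw [e]
    exact ⟨contDiff_const.mul (h1 y).1, (h1 y).2.mul_left⟩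

end basic

/-- The arithmetic of the proof, part 1: the bounds for the moments. -/
theorem arith1 (l M s n A G FE Y2 Yi d : ℝ) (hl : 6 < l)
    (hM : M ≤ 2 * l ^ 3) (hs : 1 ≤ s) (hd0 : 0 < d) (hd1 : d ≤ 1) (hn : 0 < n) (hA : 0 ≤ A)
    (hlow : 1 / 2 * A + FE < d ^ 2 * s ^ 4 * n)
    (h1 : 6 * s ^ 3 * G ≤ l * FE)
    (h2 : Y2 ≤ 2 * M * n + 4 * G) (h3 : Yi ≤ n + G) (hG : 0 ≤ G) :
    G ≤ l * s * n ∧ Y2 ≤ 8 * l ^ 3 * s * n ∧ Yi ≤ 2 * l * s * n := by
  have hl0 : 0 < l := by linarith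
  have hs0 : 0 < s := by linarith
  have hd2 : d ^ 2 ≤ 1 := pow_le_one₀ hd0.le hd1
  have hs3 : 0 < s ^ 3 := by positivity
  have hFE2 : FE ≤ s ^ 4 * n := by
    have h : d ^ 2 * (s ^ 4 * n) ≤ 1 * (s ^ 4 * n) :=
      mul_le_mul_of_nonneg_right hd2 (by positivity)
    linarith
  have hG2 : G ≤ l * s * n := by
    have h : s ^ 3 * (6 * G) ≤ s ^ 3 * (l * s * n) := by
      calc s ^ 3 * (6 * G) = 6 * s ^ 3 * G := by ring
        _ ≤ l * FE := h1
        _ ≤ l * (s ^ 4 * n) := mul_le_mul_of_nonneg_left hFE2 hl0.le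
        _ = s ^ 3 * (l * s * n) := by ring
    have h' := le_of_mul_le_mul_left h hs3
    linarith
  have hl3 : l ≤ l ^ 3 := by
    have : l ^ 1 ≤ l ^ 3 := pow_le_pow_right₀ (by linarith) (by norm_num)
    rwa [pow_one] at this
  have hsn : 0 < s * n := by positivity
  have hnsn : n ≤ s * n := le_mul_of_one_le_left hn.le hs
  refine ⟨hG2, ?_, ?_⟩
  · have e1 : 2 * M * n ≤ 4 * l ^ 3 * (s * n) := by
      calc 2 * M * n ≤ 2 * (2 * l ^ 3) * n := by gcongr
        _ = 4 * l ^ 3 * n := by ring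
        _ ≤ 4 * l ^ 3 * (s * n) := by gcongr
    have e2 : 4 * G ≤ 4 * l ^ 3 * (s * n) := by
      calc 4 * G ≤ 4 * (l * s * n) := by linarith
        _ = 4 * l * (s * n) := by ring
        _ ≤ 4 * l ^ 3 * (s * n) := by gcongr
    calc Y2 ≤ 4 * l ^ 3 * (s * n) + 4 * l ^ 3 * (s * n) := by linarith
      _ = _ := by ring
  · have e1 : n ≤ l * (s * n) := by
      calc n ≤ s * n := hnsn
        _ ≤ l * (s * n) := le_mul_of_one_le_left hsn.le (by linarith)
    calc Yi ≤ l * (s * n) + l * s * n := by linarith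
      _ = _ := by ring

/-- Part 2: the lower bound of `H`. -/
theorem arith2 (l s n Y2 Yi Gg H : ℝ) (hl : 6 < l) (hs : 1 ≤ s) (hn : 0 < n)
    (hY2 : Y2 ≤ 8 * l ^ 3 * s * n) (hYi : Yi ≤ 2 * l * s * n)
    (h4 : n ≤ 3 * l ^ 3 * s * Gg + 1 / (12 * l ^ 3 * s) * (3 / 2 * s * n + Y2 / 2 + 3 / 2 * Yi))
    (h5 : Gg ≤ H + 1 / (12 * l ^ 3 * s) * n) : n ≤ 12 * l ^ 3 * s * H := by
  have hl0 : 0 < l := by linarith
  have hs0 : 0 < s := by linarith
  have hl3' : 36 * l ≤ l ^ 3 := by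
    have h : 6 * 6 ≤ l * l := mul_le_mul hl.le hl.le (by norm_num) hl0.le
    calc 36 * l = (6 * 6) * l := by ring
      _ ≤ (l * l) * l := mul_le_mul_of_nonneg_right h hl0.le
      _ = l ^ 3 := by ring
  have hsn : 0 < s * n := by positivity
  have e1 : 1 / (12 * l ^ 3 * s) * (3 / 2 * s * n + Y2 / 2 + 3 / 2 * Yi) ≤ n / 2 := by
    rw [one_div, ← div_eq_inv_mul, div_le_iff₀ (by positivity)]
    have e2 : 3 / 2 * s * n + Y2 / 2 + 3 / 2 * Yi ≤ (3 / 2 + 4 * l ^ 3 + 3 * l) * (s * n) := by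
      calc 3 / 2 * s * n + Y2 / 2 + 3 / 2 * Yi
          ≤ 3 / 2 * s * n + (8 * l ^ 3 * s * n) / 2 + 3 / 2 * (2 * l * s * n) := by linarith
        _ = _ := by ring
    have e3 : (3 / 2 + 4 * l ^ 3 + 3 * l) * (s * n) ≤ 6 * l ^ 3 * (s * n) := by
      apply mul_le_mul_of_nonneg_right _ hsn.le
      linarith
    calc _ ≤ _ := e2
      _ ≤ _ := e3
      _ = n / 2 * (12 * l ^ 3 * s) := by ring
  have e4 : 3 * l ^ 3 * s * Gg ≤ 3 * l ^ 3 * s * H + n / 4 := by
    calc 3 * l ^ 3 * s * Gg ≤ 3 * l ^ 3 * s * (H + 1 / (12 * l ^ 3 * s) * n) :=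
          mul_le_mul_of_nonneg_left h5 (by positivity)
      _ = 3 * l ^ 3 * s * H + n / 4 := by
        field_simp
        ring
  linarith

/-- Part 3: the upper bound of `TP`. -/
theorem arith3 (l s n A G FE Y2 TP d : ℝ) (hl : 6 < l) (hs : 1 ≤ s) (hd0 : 0 < d) (hd1 : d ≤ 1)
    (hn : 0 < n) (hA : 0 ≤ A) (hFE : 0 ≤ FE)
    (hlow : 1 / 2 * A + FE < d ^ 2 * s ^ 4 * n)
    (hG2 : G ≤ l * s * n) (hY2 : Y2 ≤ 8 * l ^ 3 * s * n)
    (h7 : TP ≤ (1 + 2 * (s / d)) * A + 4 * s ^ 6 / (s * (s / d)) * G +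
      2 * s ^ 6 / (s / d) * (n + Y2 / s)) : TP ≤ 18 * l ^ 3 * d * s ^ 5 * n := by
  have hl0 : 0 < l := by linarith
  have hs0 : 0 < s := by linarith
  have hA2 : A ≤ 2 * (d ^ 2 * s ^ 4 * n) := by linarith
  have hl3' : 36 * l ≤ l ^ 3 := by
    have h : 6 * 6 ≤ l * l := mul_le_mul hl.le hl.le (by norm_num) hl0.le
    calc 36 * l = (6 * 6) * l := by ring
      _ ≤ (l * l) * l := mul_le_mul_of_nonneg_right h hl0.le
      _ = l ^ 3 := by ring
  have ht : (1:ℝ) ≤ s / d := by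
    rw [le_div_iff₀ hd0]
    linarith
  have e1 : (1 + 2 * (s / d)) * A ≤ 6 * (d * s ^ 5 * n) := by
    calc (1 + 2 * (s / d)) * A ≤ (3 * (s / d)) * A :=
          mul_le_mul_of_nonneg_right (by linarith) hA
      _ ≤ (3 * (s / d)) * (2 * (d ^ 2 * s ^ 4 * n)) :=
          mul_le_mul_of_nonneg_left hA2 (by positivity)
      _ = 6 * (d * s ^ 5 * n) := by
          field_simp
          ring
  have e2 : 4 * s ^ 6 / (s * (s / d)) * G ≤ 4 * l * (d * s ^ 5 * n) := by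
    calc 4 * s ^ 6 / (s * (s / d)) * G ≤ 4 * s ^ 6 / (s * (s / d)) * (l * s * n) :=
          mul_le_mul_of_nonneg_left hG2 (by positivity)
      _ = 4 * l * (d * s ^ 5 * n) := by
          field_simp
  have e3 : 2 * s ^ 6 / (s / d) * (n + Y2 / s) ≤ (2 + 16 * l ^ 3) * (d * s ^ 5 * n) := by
    have e4 : Y2 / s ≤ 8 * l ^ 3 * n := by
      rw [div_le_iff₀ hs0]
      linarith
    calc 2 * s ^ 6 / (s / d) * (n + Y2 / s) ≤ 2 * s ^ 6 / (s / d) * (n + 8 * l ^ 3 * n) :=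
          mul_le_mul_of_nonneg_left (by linarith) (by positivity)
      _ = (2 + 16 * l ^ 3) * (d * s ^ 5 * n) := by
          field_simp
          ring
  have e5 : (8 + 4 * l + 16 * l ^ 3) * (d * s ^ 5 * n) ≤ 18 * l ^ 3 * (d * s ^ 5 * n) := by
    apply mul_le_mul_of_nonneg_right _ (by positivity)
    linarith
  calc TP ≤ _ := h7
    _ ≤ 6 * (d * s ^ 5 * n) + 4 * l * (d * s ^ 5 * n) + (2 + 16 * l ^ 3) * (d * s ^ 5 * n) := by
        linarith
    _ = (8 + 4 * l + 16 * l ^ 3) * (d * s ^ 5 * n) := by ring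
    _ ≤ _ := e5
    _ = _ := by ring

/-- The arithmetic of the proof. -/
theorem arith (l M s cm n A G FE Y2 Yi Gg H TP d : ℝ) (hl : 6 < l) (hM0 : 0 < M)
    (hM : M ≤ 2 * l ^ 3) (hs : 1 ≤ s) (hcm : 0 < cm) (hcm1 : cm ≤ 1)
    (hd : d = cm / (1000 * l ^ 18)) (hn : 0 < n) (hA : 0 ≤ A) (hG : 0 ≤ G) (hFE : 0 ≤ FE)
    (hH0 : 0 ≤ H)
    (hlow : 1 / 2 * A + FE < d ^ 2 * s ^ 4 * n)
    (h1 : 6 * s ^ 3 * G ≤ l * FE)
    (h2 : Y2 ≤ 2 * M * n + 4 * G) (h3 : Yi ≤ n + G)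
    (h4 : n ≤ 3 * l ^ 3 * s * Gg + 1 / (12 * l ^ 3 * s) * (3 / 2 * s * n + Y2 / 2 + 3 / 2 * Yi))
    (h5 : Gg ≤ H + 1 / (12 * l ^ 3 * s) * n)
    (h6 : cm / (M ^ 2 * l ^ 6) * s ^ 6 * H ≤ TP)
    (h7 : TP ≤ (1 + 2 * (s / d)) * A + 4 * s ^ 6 / (s * (s / d)) * G +
      2 * s ^ 6 / (s / d) * (n + Y2 / s)) : False := by
  have hl0 : 0 < l := by linarith
  have hs0 : 0 < s := by linarith
  have hl18 : 1 ≤ l ^ 18 := one_le_pow₀ (by linarith)
  have hd0 : 0 < d := by rw [hd]; positivity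
  have hd1 : d ≤ 1 := by
    rw [hd, div_le_one (by positivity)]
    linarith
  have hdl : 1000 * l ^ 18 * d = cm := by
    rw [hd]
    field_simp
  obtain ⟨hG2, hY2, hYi⟩ := arith1 l M s n A G FE Y2 Yi d hl hM hs hd0 hd1 hn hA hlow h1 h2 h3 hG
  have hH := arith2 l s n Y2 Yi Gg H hl hs hn hY2 hYi h4 h5
  have hTP := arith3 l s n A G FE Y2 TP d hl hs hd0 hd1 hn hA hFE hlow hG2 hY2 h7
  have hM2 : M ^ 2 ≤ 4 * l ^ 6 := by
    calc M ^ 2 ≤ (2 * l ^ 3) ^ 2 := pow_le_pow_left₀ hM0.le hM 2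
      _ = 4 * l ^ 6 := by ring
  have e2 : 0 ≤ cm / (M ^ 2 * l ^ 6) * s ^ 6 * H := by positivity
  have hTP0 : 0 ≤ TP := e2.trans h6
  have h8 : cm * s ^ 6 * H ≤ 4 * l ^ 12 * TP := by
    have e1 : cm * s ^ 6 * H = (M ^ 2 * l ^ 6) * (cm / (M ^ 2 * l ^ 6) * s ^ 6 * H) := by
      field_simp
    calc cm * s ^ 6 * H = (M ^ 2 * l ^ 6) * (cm / (M ^ 2 * l ^ 6) * s ^ 6 * H) := e1
      _ ≤ (M ^ 2 * l ^ 6) * TP := mul_le_mul_of_nonneg_left h6 (by positivity)
      _ ≤ (4 * l ^ 6 * l ^ 6) * TP := by gcongr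
      _ = 4 * l ^ 12 * TP := by ring
  have h9 : cm * s ^ 6 * n ≤ 864 / 1000 * (cm * s ^ 6 * n) := by
    calc cm * s ^ 6 * n ≤ cm * s ^ 6 * (12 * l ^ 3 * s * H) :=
          mul_le_mul_of_nonneg_left hH (by positivity)
      _ = 12 * l ^ 3 * s * (cm * s ^ 6 * H) := by ring
      _ ≤ 12 * l ^ 3 * s * (4 * l ^ 12 * TP) := mul_le_mul_of_nonneg_left h8 (by positivity)
      _ ≤ 12 * l ^ 3 * s * (4 * l ^ 12 * (18 * l ^ 3 * d * s ^ 5 * n)) := by gcongr
      _ = 864 / 1000 * ((1000 * l ^ 18 * d) * s ^ 6 * n) := by ring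
      _ = 864 / 1000 * (cm * s ^ 6 * n) := by rw [hdl]
  have h10 : 0 < cm * s ^ 6 * n := by positivity
  linarith

/-- **LOW**. -/
theorem low (hSNF : SnfStmt) (hNFC : NfcStmt) (hNFI : NfiStmt) (hFUB : FubStmt) (hCNT : CntStmt)
    (hMAG : MagStmt) (hDOY : DoyStmt) (hTHE : TheStmt) (hVIR : VirStmt) (hHAR : HarStmt)
    (hMOM : MomStmt) (hAMG : AmgStmt) : LowStmt := by
  intro alpha ha
  obtain ⟨cm, hcm0, hcm1, hmag⟩ := hMAG alpha ha
  refine ⟨(cm / 1000) ^ 2, 36, by positivity, ?_⟩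
  intro cut L P hcut hL hlc psi hpsi
  have hcut0 : 0 < cut := by linarith
  have hl6 : 6 < L * cut := by
    have := Real.pi_gt_three
    linarith
  obtain ⟨s, hs1, hs3, hs4⟩ : ∃ s : ℝ, 1 ≤ s ∧ s ^ 3 = cut ∧ cut ^ ((4 / 3 : ℝ)) = s ^ 4 := by
    refine ⟨cut ^ ((1 / 3 : ℝ)), Real.one_le_rpow hcut (by norm_num), ?_, ?_⟩
    · rw [← Real.rpow_natCast, ← Real.rpow_mul hcut0.le]
      norm_num
    · rw [← Real.rpow_natCast, ← Real.rpow_mul hcut0.le]
      norm_num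
  have hs0 : 0 < s := by linarith
  have hs6 : cut ^ 2 = s ^ 6 := by
    rw [← hs3]
    ring
  obtain ⟨hM4, hM, hom⟩ := hCNT cut L hL hlc
  obtain ⟨hDDw, hcovw, hdYw, -⟩ := hDOY cut L alpha P psi hpsi
  obtain ⟨hthPB, hth01, -⟩ := hTHE cut L s P hL hcut0 hs0
  generalize hl : L * cut = l at *
  have hl0 : 0 < l := by linarith
  have hM0 : 0 < (Fintype.card (Mode cut L) : ℝ) := by
    have : 0 < Fintype.card (Mode cut L) := by omega
    exact_mod_cast this
  -- nice functions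
  have nfn : NF (fun y x => nsq (psi y x)) := nf_nsq hSNF hNFC hpsi
  have nfz := nf_zero hNFC nfn
  have nfD : NF (fun y x => nsq (DD alpha P psi y x)) := nf_nsq hSNF hNFC hDDw
  have nfdY : ∀ i, NF (fun y x => nsq (dY2 i psi y x)) := fun i => nf_nsq hSNF hNFC (hdYw i)
  have nfG : NF (fun y x => ∑ i, nsq (dY2 i psi y x)) := nf_sum hNFC Finset.univ _ nfz nfdY
  have nfFE : NF (fun y x => ∑ i, om i * nsq (dY2 i psi y x)) :=
    nf_sum hNFC Finset.univ (fun i y x => om i * nsq (dY2 i psi y x)) nfz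
      fun i => nf_const hNFC (nfdY i) (om i)
  have nfPP : NF (fun y x => PP alpha P psi y x) :=
    nf_sum hNFC Finset.univ (fun j y x => nsq (cov (VV alpha P y) j (psi y) x)) nfz
      fun j => nf_nsq hSNF hNFC (hcovw j)
  have nfthPP : NF (fun y x => th s y * PP alpha P psi y x) :=
    (hNFC _ _ nfPP).2.1 (th s) hthPB
  by_contra hcon
  rw [not_le, hs4] at hcon
  have hn0 : 0 ≤ II (fun y x => nsq (psi y x)) := II_nonneg fun _ _ => nsq_nonneg _
  have hA0 : 0 ≤ II (fun y x => nsq (DD alpha P psi y x)) := II_nonneg fun _ _ => nsq_nonneg _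
  have hG0 : 0 ≤ II (fun y x => ∑ i, nsq (dY2 i psi y x)) :=
    II_nonneg fun _ _ => Finset.sum_nonneg fun _ _ => nsq_nonneg _
  have hompos : ∀ i : Mode cut L, 0 < om i := fun i =>
    lt_of_lt_of_le (by positivity) (hom i).1
  have hFE0 : 0 ≤ II (fun y x => ∑ i, om i * nsq (dY2 i psi y x)) :=
    II_nonneg fun _ _ => Finset.sum_nonneg fun i _ => mul_nonneg (hompos i).le (nsq_nonneg _)
  have hn : 0 < II (fun y x => nsq (psi y x)) := by
    rcases hn0.eq_or_lt with h | h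
    · exfalso
      rw [← h, mul_zero] at hcon
      linarith
    · exact h
  obtain ⟨eta, heta⟩ : ∃ eta : ℝ, eta = 1 / (12 * l ^ 3 * s) := ⟨_, rfl⟩
  have heta0 : 0 < eta := by
    rw [heta]
    positivity
  -- field energy
  have h1 : 6 * s ^ 3 * II (fun y x => ∑ i, nsq (dY2 i psi y x)) ≤
      l * II (fun y x => ∑ i, om i * nsq (dY2 i psi y x)) := by
    have e1 : 2 * Real.pi / L * II (fun y x => ∑ i, nsq (dY2 i psi y x)) ≤
        II (fun y x => ∑ i, om i * nsq (dY2 i psi y x)) := by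
      rw [← II_mul]
      refine II_mono hNFI (nf_const hNFC nfG _) nfFE fun y x => ?_
      rw [Finset.mul_sum]
      exact Finset.sum_le_sum fun i _ => mul_le_mul_of_nonneg_right (hom i).1 (nsq_nonneg _)
    calc 6 * s ^ 3 * II (fun y x => ∑ i, nsq (dY2 i psi y x))
        ≤ 2 * Real.pi * s ^ 3 * II (fun y x => ∑ i, nsq (dY2 i psi y x)) := by
          have := Real.pi_gt_three
          gcongr
          linarith
      _ = l * (2 * Real.pi / L * II (fun y x => ∑ i, nsq (dY2 i psi y x))) := by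
          rw [← hl, hs3]
          field_simp
      _ ≤ _ := mul_le_mul_of_nonneg_left e1 hl0.le
  have h2 := hMOM (Mode cut L) psi hpsi
  have h3 := hHAR (Mode cut L) hM4 psi hpsi eta heta0
  -- bounded factors
  have cnn : Continuous (fun y : Mode cut L → ℝ => nn y) := pb_nn.1
  have pb1 : PB (fun y : Mode cut L → ℝ => (nn y + eta)⁻¹) := by
    refine pb_bdd ((cnn.add continuous_const).inv₀ fun y => ?_) (C := eta⁻¹) fun y => ?_
    · have := nn_nonneg y
      have h : 0 < nn y + eta := by linarith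
      exact h.ne'
    · have h := nn_nonneg y
      rw [abs_of_nonneg (by positivity)]
      exact inv_anti₀ heta0 (by linarith)
  have pb2 : PB (fun y : Mode cut L → ℝ => (nn y + eta) / (1 + nn y)) := by
    refine pb_bdd ((cnn.add continuous_const).div (continuous_const.add cnn) fun y => ?_)
      (C := 1 + eta) fun y => ?_
    · have := nn_nonneg y
      positivity
    · have h := nn_nonneg y
      rw [abs_of_nonneg (by positivity), div_le_iff₀ (by positivity)]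
      nlinarith
  have pb3 : PB (fun y : Mode cut L → ℝ => nn y / (1 + nn y)) := by
    refine pb_bdd (cnn.div (continuous_const.add cnn) fun y => ?_) (C := 1) fun y => ?_
    · have := nn_nonneg y
      positivity
    · have h := nn_nonneg y
      rw [abs_of_nonneg (by positivity), div_le_iff₀ (by positivity)]
      linarith
  have nf1 : NF (fun y x => (th s y * ((nn y + eta) / (1 + nn y))) * nsq (psi y x)) :=
    (hNFC _ _ nfn).2.1 _ (Pool.Agent.Loc.PB.mul hthPB pb2)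
  have nf2 : NF (fun y x => nn y * nsq (psi y x)) := (hNFC _ _ nfn).2.1 _ pb_nn
  have nf3 : NF (fun y x => (nn y + eta)⁻¹ * nsq (psi y x)) := (hNFC _ _ nfn).2.1 _ pb1
  have nf5 : NF (fun y x => (th s y * (nn y / (1 + nn y))) * nsq (psi y x)) :=
    (hNFC _ _ nfn).2.1 _ (Pool.Agent.Loc.PB.mul hthPB pb3)
  -- AMG integrated
  have h4 : II (fun y x => nsq (psi y x)) ≤ 3 * l ^ 3 * s *
      II (fun y x => (th s y * ((nn y + eta) / (1 + nn y))) * nsq (psi y x)) +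
      1 / (12 * l ^ 3 * s) * (3 / 2 * s * II (fun y x => nsq (psi y x)) +
        II (fun y x => nn y * nsq (psi y x)) / 2 +
        3 / 2 * II (fun y x => (nn y + eta)⁻¹ * nsq (psi y x))) := by
    have nfa : NF (fun y x => 1 / 2 * (nn y * nsq (psi y x)) +
        3 / 2 * ((nn y + eta)⁻¹ * nsq (psi y x))) :=
      ((hNFC _ _ (nf_const hNFC nf2 (1 / 2))).1 _ (nf_const hNFC nf3 (3 / 2))).1
    have nfb : NF (fun y x => 3 / 2 * s * nsq (psi y x) + (1 / 2 * (nn y * nsq (psi y x)) +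
        3 / 2 * ((nn y + eta)⁻¹ * nsq (psi y x)))) :=
      ((hNFC _ _ (nf_const hNFC nfn (3 / 2 * s))).1 _ nfa).1
    have nfc := nf_const hNFC nfb (1 / (12 * l ^ 3 * s))
    have nfd := nf_const hNFC nf1 (3 * l ^ 3 * s)
    have e1 := II_mono hNFI nfn ((hNFC _ _ nfd).1 _ nfc).1 (fun y x => by
      have hu : 0 ≤ nsq (psi y x) := nsq_nonneg _
      have h := hAMG s (nn y) eta (6 * l ^ 3 * s) hs1 (nn_nonneg y) heta0 (by positivity)
      have h' := mul_le_mul_of_nonneg_right h hu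
      have e : 1 / (2 * (6 * l ^ 3 * s)) = 1 / (12 * l ^ 3 * s) := by
        congr 1
        ring
      rw [e] at h'
      show nsq (psi y x) ≤ 3 * l ^ 3 * s *
        (((Real.sqrt (1 + s * nn y))⁻¹ * ((nn y + eta) / (1 + nn y))) * nsq (psi y x)) +
        1 / (12 * l ^ 3 * s) * (3 / 2 * s * nsq (psi y x) + (1 / 2 * (nn y * nsq (psi y x)) +
        3 / 2 * ((nn y + eta)⁻¹ * nsq (psi y x))))
      calc nsq (psi y x) = 1 * nsq (psi y x) := (one_mul _).symm
        _ ≤ _ := h'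
        _ = _ := by ring)
    rw [II_add hNFI nfd nfc, II_mul, II_mul, II_add hNFI (nf_const hNFC nfn (3 / 2 * s)) nfa,
      II_mul, II_add hNFI (nf_const hNFC nf2 (1 / 2)) (nf_const hNFC nf3 (3 / 2)), II_mul,
      II_mul] at e1
    calc _ ≤ _ := e1
      _ = _ := by ring
  have h5 : II (fun y x => (th s y * ((nn y + eta) / (1 + nn y))) * nsq (psi y x)) ≤
      II (fun y x => (th s y * (nn y / (1 + nn y))) * nsq (psi y x)) +
        1 / (12 * l ^ 3 * s) * II (fun y x => nsq (psi y x)) := by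
    rw [← heta, ← II_mul, ← II_add hNFI nf5 (nf_const hNFC nfn eta)]
    refine II_mono hNFI nf1 ((hNFC _ _ nf5).1 _ (nf_const hNFC nfn eta)).1 fun y x => ?_
    have hu : 0 ≤ nsq (psi y x) := nsq_nonneg _
    rw [← add_mul]
    refine mul_le_mul_of_nonneg_right ?_ hu
    have hy := nn_nonneg y
    obtain ⟨ht0, ht1⟩ := hth01 y
    have e1 : (nn y + eta) / (1 + nn y) = nn y / (1 + nn y) + eta / (1 + nn y) := add_div _ _ _
    have e2 : eta / (1 + nn y) ≤ eta := div_le_self heta0.le (by linarith)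
    have e3 : 0 ≤ eta / (1 + nn y) := by positivity
    rw [e1, mul_add]
    have e4 : th s y * (eta / (1 + nn y)) ≤ 1 * eta :=
      mul_le_mul ht1 e2 e3 zero_le_one
    linarith
  -- the magnetic bound integrated
  have h6 : cm / ((Fintype.card (Mode cut L) : ℝ) ^ 2 * l ^ 6) * s ^ 6 *
      II (fun y x => (th s y * (nn y / (1 + nn y))) * nsq (psi y x)) ≤
      II (fun y x => th s y * PP alpha P psi y x) := by
    rw [← II_mul]
    refine (hFUB _ _ _ (nf_const hNFC nf5 _) nfthPP).2 fun y => ?_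
    have hy := hmag cut L P hL (by rw [hl]; exact hlc) y (psi y) fun σ => cs_of_SS (hpsi σ) y
    rw [hl, hs6] at hy
    have e1 : ∫ x, cm / ((Fintype.card (Mode cut L) : ℝ) ^ 2 * l ^ 6) * s ^ 6 *
        ((th s y * (nn y / (1 + nn y))) * nsq (psi y x)) =
        th s y * (cm / ((Fintype.card (Mode cut L) : ℝ) ^ 2 * l ^ 6) * s ^ 6 *
          (nn y / (1 + nn y)) * ∫ x, nsq (psi y x)) := by
      rw [integral_const_mul, integral_const_mul]
      ring
    have e2 : ∫ x, th s y * PP alpha P psi y x = th s y * ∫ x, PP alpha P psi y x :=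
      integral_const_mul _ _
    rw [e1, e2]
    exact mul_le_mul_of_nonneg_left hy (hth01 y).1.le
  obtain ⟨d, hd⟩ : ∃ d : ℝ, d = cm / (1000 * l ^ 18) := ⟨_, rfl⟩
  have hd0 : 0 < d := by
    rw [hd]
    positivity
  -- the virial inequality
  have h7 : II (fun y x => th s y * PP alpha P psi y x) ≤
      (1 + 2 * (s / d)) * II (fun y x => nsq (DD alpha P psi y x)) +
      4 * s ^ 6 / (s * (s / d)) * II (fun y x => ∑ i, nsq (dY2 i psi y x)) +
      2 * s ^ 6 / (s / d) * (II (fun y x => nsq (psi y x)) +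
        II (fun y x => nn y * nsq (psi y x)) / s) := by
    have e1 := hVIR cut L alpha P psi hL hcut0 hpsi s (s / d) hs0 (by positivity)
    have e2 : II (fun y x => (1 + nn y / s) * nsq (psi y x)) = II (fun y x => nsq (psi y x)) +
        II (fun y x => nn y * nsq (psi y x)) / s := by
      have e3 : (fun (y : Mode cut L → ℝ) (x : X3) => (1 + nn y / s) * nsq (psi y x)) =
          fun y x => nsq (psi y x) + s⁻¹ * (nn y * nsq (psi y x)) := by
        funext y x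
        ring
      rw [e3, II_add hNFI nfn (nf_const hNFC nf2 s⁻¹), II_mul]
      ring
    rw [e2, hs6] at e1
    exact e1
  have hlow : 1 / 2 * II (fun y x => nsq (DD alpha P psi y x)) +
      II (fun y x => ∑ i, om i * nsq (dY2 i psi y x)) <
      d ^ 2 * s ^ 4 * II (fun y x => nsq (psi y x)) := by
    have e1 : d ^ 2 = (cm / 1000) ^ 2 / l ^ 36 := by
      rw [hd]
      field_simp
    rw [e1]
    exact hcon
  have hH0 : 0 ≤ II (fun y x => (th s y * (nn y / (1 + nn y))) * nsq (psi y x)) := by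
    refine II_nonneg fun y x => ?_
    have hy := nn_nonneg y
    have := (hth01 y).1.le
    have := nsq_nonneg (psi y x)
    positivity
  exact arith l (Fintype.card (Mode cut L)) s cm _ _ _ _ _ _ _ _ _ d hl6 hM0 hM hs1 hcm0 hcm1 hd
    hn hA0 hG0 hFE0 hH0 hlow h1 h2 h3 h4 h5 h6 h7

end Pool.Agent.MBX.H6
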